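import Pool.Agent.H487_FV.Main

/-!
For every prime `p` and every form `h` of degree `d` over `𝔽_p` with isolated singularity at the
origin there is a polynomial over `𝔽_p` with leading form `h` whose first exponential sum has the
`p`-adic order of the first vertex of the Hodge polygon, up to `(n + d - 2) / (d (p - 1))`.
-/

set_option autoImplicit false

namespace Pool.Agent.Results.MP_2729b9_nt.FibreFirstVertex

open MvPolynomial

theorem result (p : ℕ) [Fact p.Prime] (n d : ℕ) (hn : 1 ≤ n) (hd : 2 ≤ d)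
    (h : MvPolynomial (Fin n) (ZMod p)) (hh : h.IsHomogeneous d)
    (hsmooth : ∀ x : Fin n → AlgebraicClosure (ZMod p),
      (∀ i, aeval x (pderiv i h) = 0) → x = 0) :
    ∃ f : MvPolynomial (Fin n) (ZMod p), f.totalDegree = d ∧ homogeneousComponent d f = h ∧
      ∀ ζ : CyclotomicField p ℚ, IsPrimitiveRoot ζ p →
        ∑ y : Fin n → ZMod p, ζ ^ (eval y f).val ≠ 0 ∧
        (padicValRat p (Algebra.norm ℚ
          (∑ y : Fin n → ZMod p, ζ ^ (eval y f).val)) : ℝ) / ((p : ℝ) - 1) ≤
          (n : ℝ) / d + ((n : ℝ) + d - 2) / (d * ((p : ℝ) - 1)) :=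
  Pool.Agent.H487_FV.first_vertex hn hd hh hsmooth

end Pool.Agent.Results.MP_2729b9_nt.FibreFirstVertex
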